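import Pool.Agent.Helper57.S4.Walk
import Pool.Agent.Helper2.PD.Cases3

/-!
# S4: the end of the proof

A colouring which vanishes on both sides of all edges of the circles with crossings on both sides, and on both sides of some edge, is zero.
-/

set_option autoImplicit false

namespace Pool.Agent.Helper2.S4

open Pool.Agent.Helper85.Exp Pool.Agent.Helper2.PD Pool.Agent.Helper43.Pln Pool.Agent.Helper57.S4

variable {P : Type}

section

variable [Fintype P] {G : Sh P}

open Classical in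
/-- Sums over the crossings of a function of the face in front. -/
theorem sum_N (φ : Face G → ℂ) [Fintype (Face G)] :
    (∑ x : P, if G.lf x = true then φ (Rf G x) else 0) = ∑ f : Face G, (kf G f : ℂ) * φ f := by
  have h1 : ∀ x : P, (if G.lf x = true then φ (Rf G x) else 0) =
      ∑ f : Face G, if G.lf x = true ∧ Rf G x = f then φ f else 0 := by
    intro x
    by_cases h : G.lf x = true
    · simp [h]
    · simp [h]
  rw [Finset.sum_congr rfl fun x _ => h1 x, Finset.sum_comm]
  refine Finset.sum_congr rfl fun f _ => ?_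
  rw [← Finset.sum_filter, Finset.sum_const, nsmul_eq_mul, kf, Nat.card_eq_fintype_card, Fintype.card_subtype]

open Classical in
/-- Sums over the crossings of a function of the face behind. -/
theorem sum_S (ho : ∀ i, G.op i ≠ i) (φ : Face G → ℂ) [Fintype (Face G)] :
    (∑ x : P, if G.lf x = true then φ (Lf G (G.nxt.symm x)) else 0) = ∑ f : Face G, (kf G f : ℂ) * φ f := by
  have h1 : ∀ x : P, (if G.lf x = true then φ (Lf G (G.nxt.symm x)) else 0) =
      ∑ f : Face G, if G.lf x = true ∧ Lf G (G.nxt.symm x) = f then φ f else 0 := by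
    intro x
    by_cases h : G.lf x = true
    · simp [h]
    · simp [h]
  rw [Finset.sum_congr rfl fun x _ => h1 x, Finset.sum_comm]
  refine Finset.sum_congr rfl fun f _ => ?_
  rw [← Finset.sum_filter, Finset.sum_const, nsmul_eq_mul, kf_eq_S ho, Nat.card_eq_fintype_card, Fintype.card_subtype]

/-- The edge is dead. -/
def Dead (G : Sh P) (c : Face G → ℂ) (e : P) : Prop := c (Lf G e) = 0 ∧ c (Rf G e) = 0

open Classical in
/-- The sum over the left visits. -/
theorem sum_W (ho : ∀ i, G.op i ≠ i) {c : Face G → ℂ}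
    (hd : ∀ e, kf G (Lf G e) ≠ 0 → kf G (Rf G e) ≠ 0 → c (Lf G e) = 0 ∧ c (Rf G e) = 0) :
    (∑ x : P, if G.lf x = true then starRingEnd ℂ (c (Rf G x) - c (Lf G (G.nxt.symm x))) * c (Lf G x) else 0) = 0 := by
  have h1 : ∀ x : P, (if G.lf x = true then starRingEnd ℂ (c (Rf G x) - c (Lf G (G.nxt.symm x))) * c (Lf G x) else 0) =
      (if kf G (Lf G x) = 0 then starRingEnd ℂ (c (Rf G x)) * c (Lf G x) else 0) -
        (if kf G (Lf G x) = 0 then starRingEnd ℂ (c (Rf G (G.nxt.symm (G.op x)))) * c (Lf G x) else 0) := by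
    intro x
    by_cases hz : kf G (Lf G x) = 0
    · have hl := lf_of_zero_L ho hz
      rw [if_pos hl, if_pos hz, if_pos hz, corner_S hl, map_sub]
      ring
    · rw [if_neg hz, if_neg hz, sub_zero]
      by_cases hl : G.lf x = true
      · rw [if_pos hl]
        have h2 : kf G (Rf G x) ≠ 0 := fun h => kf_zero_N h x hl rfl
        rw [(hd x hz h2).1, mul_zero]
      · rw [if_neg hl]
  rw [Finset.sum_congr rfl fun x _ => h1 x, Finset.sum_sub_distrib, sub_eq_zero]
  rw [← Equiv.sum_comp (seifert G) (fun x => if kf G (Lf G x) = 0 then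
    starRingEnd ℂ (c (Rf G (G.nxt.symm (G.op x)))) * c (Lf G x) else 0)]
  refine Finset.sum_congr rfl fun x _ => ?_
  have e1 : seifert G x = G.op (G.nxt x) := rfl
  rw [e1, G.op_op, Equiv.symm_apply_apply]
  by_cases hz : kf G (Lf G x) = 0
  · have h2 := zero_L_step ho x hz
    rw [h2]
  · have h3 : kf G (Lf G (G.op (G.nxt x))) ≠ 0 := by
      intro h
      refine hz ?_
      have h4 : S G (G.op (G.nxt x)) x := (S_step x).symm
      rw [same_L ho h h4]
      exact h
    rw [if_neg hz, if_neg h3]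

open Classical in
/-- The sum over the right visits. -/
theorem sum_E (ho : ∀ i, G.op i ≠ i) {c : Face G → ℂ}
    (hd : ∀ e, kf G (Lf G e) ≠ 0 → kf G (Rf G e) ≠ 0 → c (Lf G e) = 0 ∧ c (Rf G e) = 0) :
    (∑ x : P, if G.lf x = true then starRingEnd ℂ (c (Rf G x) - c (Lf G (G.nxt.symm x))) * c (Rf G (G.op x)) else 0) = 0 := by
  -- pass to the visit `op x`
  have h0 : (∑ x : P, if G.lf x = true then starRingEnd ℂ (c (Rf G x) - c (Lf G (G.nxt.symm x))) * c (Rf G (G.op x)) else 0) =
      ∑ x : P, if G.lf x = false then starRingEnd ℂ (c (Lf G x) - c (Lf G (G.nxt.symm (G.op x)))) * c (Rf G x) else 0 := by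
    let σ : Equiv.Perm P := ⟨G.op, G.op, G.op_op, G.op_op⟩
    rw [← Equiv.sum_comp σ (fun x => if G.lf x = false then
      starRingEnd ℂ (c (Lf G x) - c (Lf G (G.nxt.symm (G.op x)))) * c (Rf G x) else 0)]
    refine Finset.sum_congr rfl fun x _ => ?_
    have e1 : σ x = G.op x := rfl
    rw [e1, G.op_op]
    by_cases hl : G.lf x = true
    · have h2 : G.lf (G.op x) = false := by rw [lf_op' ho, hl]; rfl
      rw [if_pos hl, if_pos h2, corner_N hl]
    · have h2 : ¬ G.lf (G.op x) = false := by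
        rw [lf_op' ho]
        simpa using hl
      rw [if_neg hl, if_neg h2]
  rw [h0]
  have h1 : ∀ x : P, (if G.lf x = false then starRingEnd ℂ (c (Lf G x) - c (Lf G (G.nxt.symm (G.op x)))) * c (Rf G x) else 0) =
      (if kf G (Rf G x) = 0 then starRingEnd ℂ (c (Lf G x)) * c (Rf G x) else 0) -
        (if kf G (Rf G x) = 0 then starRingEnd ℂ (c (Lf G (G.nxt.symm (G.op x)))) * c (Rf G x) else 0) := by
    intro x
    by_cases hz : kf G (Rf G x) = 0
    · have hl := lf_of_zero_R hz
      rw [if_pos hl, if_pos hz, if_pos hz, map_sub]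
      ring
    · rw [if_neg hz, if_neg hz, sub_zero]
      by_cases hl : G.lf x = false
      · rw [if_pos hl]
        have h2 : kf G (Lf G x) ≠ 0 := by
          intro h
          have := lf_of_zero_L ho h
          rw [hl] at this
          exact absurd this (by simp)
        rw [(hd x h2 hz).2, mul_zero]
      · rw [if_neg hl]
  rw [Finset.sum_congr rfl fun x _ => h1 x, Finset.sum_sub_distrib, sub_eq_zero]
  rw [← Equiv.sum_comp (seifert G) (fun x => if kf G (Rf G x) = 0 then
    starRingEnd ℂ (c (Lf G (G.nxt.symm (G.op x)))) * c (Rf G x) else 0)]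
  refine Finset.sum_congr rfl fun x _ => ?_
  have e1 : seifert G x = G.op (G.nxt x) := rfl
  rw [e1, G.op_op, Equiv.symm_apply_apply]
  by_cases hz : kf G (Rf G x) = 0
  · have h2 := zero_R_step ho x hz
    rw [h2]
  · have h3 : kf G (Rf G (G.op (G.nxt x))) ≠ 0 := by
      intro h
      refine hz ?_
      have h4 : S G (G.op (G.nxt x)) x := (S_step x).symm
      rw [same_R ho h h4]
      exact h
    rw [if_neg hz, if_neg h3]

open Classical in
/-- The face in front and the face behind have the same colour. -/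
theorem N_eq_S (ho : ∀ i, G.op i ≠ i) {s : ℂ} (hs0 : s ≠ 0) (hs : ‖s‖ < 1) {c : Face G → ℂ} (hc : Col G s c)
    (hd : ∀ e, kf G (Lf G e) ≠ 0 → kf G (Rf G e) ≠ 0 → c (Lf G e) = 0 ∧ c (Rf G e) = 0) (x : P) (hx : G.lf x = true) :
    c (Rf G x) = c (Lf G (G.nxt.symm x)) := by
  haveI : Fintype (Face G) := Fintype.ofFinite _
  set X : Finset P := Finset.univ.filter fun x => G.lf x = true with hX
  set N : P → ℂ := fun x => c (Rf G x) with hN
  set T : P → ℂ := fun x => c (Lf G (G.nxt.symm x)) with hT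
  have hW := sum_W ho hd
  have hE := sum_E ho hd
  rw [← Finset.sum_filter] at hW hE
  have h1 : ∑ x ∈ X, starRingEnd ℂ (N x - T x) * (N x + s ^ 2 * T x) = 0 := by
    have h2 : ∑ x ∈ X, starRingEnd ℂ (N x - T x) * (N x + s ^ 2 * T x) =
        s * (∑ x ∈ X, starRingEnd ℂ (N x - T x) * c (Lf G x)) +
          s * (∑ x ∈ X, starRingEnd ℂ (N x - T x) * c (Rf G (G.op x))) := by
      rw [Finset.mul_sum, Finset.mul_sum, ← Finset.sum_add_distrib]
      refine Finset.sum_congr rfl fun x hx => ?_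
      have hx' : G.lf x = true := (Finset.mem_filter.1 hx).2
      have h3 : N x + s ^ 2 * T x = s * (c (Lf G x) + c (Rf G (G.op x))) := hc x hx'
      rw [h3]
      ring
    rw [h2, hW, hE, mul_zero, add_zero]
  -- the two squares
  have hQ : ∑ x ∈ X, starRingEnd ℂ (N x) * N x = ∑ x ∈ X, starRingEnd ℂ (T x) * T x := by
    have e1 := sum_N (G := G) (fun f => starRingEnd ℂ (c f) * c f)
    have e2 := sum_S (G := G) ho (fun f => starRingEnd ℂ (c f) * c f)
    rw [← Finset.sum_filter] at e1 e2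
    rw [e1.trans e2.symm]
  set Q := ∑ x ∈ X, starRingEnd ℂ (N x) * N x with hQd
  set Z := ∑ x ∈ X, starRingEnd ℂ (N x) * T x with hZd
  have hZc : ∑ x ∈ X, starRingEnd ℂ (T x) * N x = starRingEnd ℂ Z := by
    rw [hZd, map_sum]
    refine Finset.sum_congr rfl fun x _ => ?_
    rw [map_mul, Complex.conj_conj, mul_comm]
  have hQc : starRingEnd ℂ Q = Q := by
    rw [hQd, map_sum]
    refine Finset.sum_congr rfl fun x _ => ?_
    rw [map_mul, Complex.conj_conj, mul_comm]
  have h3 : Q + s ^ 2 * Z - starRingEnd ℂ Z - s ^ 2 * Q = 0 := by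
    have h4 : ∑ x ∈ X, starRingEnd ℂ (N x - T x) * (N x + s ^ 2 * T x) =
        (∑ x ∈ X, starRingEnd ℂ (N x) * N x) + s ^ 2 * (∑ x ∈ X, starRingEnd ℂ (N x) * T x) -
          (∑ x ∈ X, starRingEnd ℂ (T x) * N x) - s ^ 2 * (∑ x ∈ X, starRingEnd ℂ (T x) * T x) := by
      rw [Finset.mul_sum, Finset.mul_sum, ← Finset.sum_add_distrib, ← Finset.sum_sub_distrib, ← Finset.sum_sub_distrib]
      refine Finset.sum_congr rfl fun x _ => ?_
      rw [map_sub]
      ring
    rw [h1, ← hQ, hZc] at h4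
    exact h4.symm
  have h5 : starRingEnd ℂ (Q - Z) = s ^ 2 * (Q - Z) := by
    rw [map_sub, hQc]
    linear_combination h3
  have h6 : Q - Z = 0 := by
    have h7 : ‖Q - Z‖ = ‖s‖ ^ 2 * ‖Q - Z‖ := by
      have := congrArg norm h5
      rw [norm_mul, norm_pow, RCLike.norm_conj] at this
      exact this
    have h8 : ‖s‖ ^ 2 < 1 := by
      have := norm_nonneg s
      nlinarith
    have h9 : ‖Q - Z‖ = 0 := by
      have := norm_nonneg (Q - Z)
      nlinarith
    exact norm_eq_zero.1 h9
  have hZ : Z = Q := (sub_eq_zero.1 h6).symm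
  have h7 : ∑ x ∈ X, starRingEnd ℂ (N x - T x) * (N x - T x) = 0 := by
    have h4 : ∑ x ∈ X, starRingEnd ℂ (N x - T x) * (N x - T x) =
        (∑ x ∈ X, starRingEnd ℂ (N x) * N x) - (∑ x ∈ X, starRingEnd ℂ (N x) * T x) -
          (∑ x ∈ X, starRingEnd ℂ (T x) * N x) + (∑ x ∈ X, starRingEnd ℂ (T x) * T x) := by
      rw [← Finset.sum_sub_distrib, ← Finset.sum_sub_distrib, ← Finset.sum_add_distrib]
      refine Finset.sum_congr rfl fun x _ => ?_
      rw [map_sub]
      ring
    rw [h4, ← hQ, hZc, ← hZd, hZ, hQc, ← hQd]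
    ring
  have h8 : ∑ x ∈ X, ‖N x - T x‖ ^ 2 = 0 := by
    have h9 : ((∑ x ∈ X, ‖N x - T x‖ ^ 2 : ℝ) : ℂ) = 0 := by
      rw [Complex.ofReal_sum, ← h7]
      refine Finset.sum_congr rfl fun x _ => ?_
      rw [Complex.ofReal_pow, Complex.conj_mul']
    exact_mod_cast h9
  have h9 := (Finset.sum_eq_zero_iff_of_nonneg (fun x _ => by positivity)).1 h8 x (Finset.mem_filter.2 ⟨Finset.mem_univ x, hx⟩)
  have h10 : ‖N x - T x‖ = 0 := by
    exact pow_eq_zero_iff (two_ne_zero) |>.1 h9
  exact sub_eq_zero.1 (norm_eq_zero.1 h10)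

/-- The four edges of a crossing die together. -/
theorem dead_cross (ho : ∀ i, G.op i ≠ i) {s : ℂ} (hs0 : s ≠ 0) {c : Face G → ℂ} (hc : Col G s c) {x : P} (hx : G.lf x = true)
    (h : c (Rf G x) = c (Lf G (G.nxt.symm x))) :
    (Dead G c (G.nxt.symm x) ↔ Dead G c x) ∧ (Dead G c (G.nxt.symm (G.op x)) ↔ Dead G c x) ∧ (Dead G c (G.op x) ↔ Dead G c x) := by
  have h1 := hc x hx
  have hE := corner_E hx (ho x)
  have hN := corner_N hx
  have hS := corner_S hx
  have hW := corner_W hx (ho x)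
  unfold Dead
  rw [hE, ← hN, ← hS, ← hW, ← h] at *
  have key : c (Rf G x) = 0 → (c (Rf G (G.op x)) = 0 ↔ c (Lf G x) = 0) := by
    intro h0
    rw [h0] at h1
    have h2 : s * (c (Lf G x) + c (Rf G (G.op x))) = 0 := by
      rw [← h1]
      ring
    have h3 : c (Lf G x) + c (Rf G (G.op x)) = 0 := by
      rcases mul_eq_zero.1 h2 with h | h
      · exact absurd h hs0
      · exact h
    constructor
    · intro h4
      rw [h4, add_zero] at h3
      exact h3
    · intro h4
      rw [h4, zero_add] at h3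
      exact h3
  refine ⟨⟨?_, ?_⟩, ⟨?_, ?_⟩, ⟨?_, ?_⟩⟩
  · rintro ⟨h2, h3⟩
    exact ⟨(key h2).1 h3, h2⟩
  · rintro ⟨h2, h3⟩
    exact ⟨h3, (key h3).2 h2⟩
  · rintro ⟨h2, h3⟩
    exact ⟨h2, h3⟩
  · rintro ⟨h2, h3⟩
    exact ⟨h2, h3⟩
  · rintro ⟨h2, h3⟩
    exact ⟨(key h2).1 h3, h2⟩
  · rintro ⟨h2, h3⟩
    exact ⟨h3, (key h3).2 h2⟩

/-- **The end of the proof.** -/
theorem finish (hG : Plane G) {s : ℂ} (hs0 : s ≠ 0) (hs : ‖s‖ < 1) {c : Face G → ℂ} (hc : Col G s c)
    (hd : ∀ e, kf G (Lf G e) ≠ 0 → kf G (Rf G e) ≠ 0 → c (Lf G e) = 0 ∧ c (Rf G e) = 0)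
    (he : ∃ e, c (Lf G e) = 0 ∧ c (Rf G e) = 0) (f : Face G) : c f = 0 := by
  have ho := hG.cross
  have hX := fun x hx => dead_cross ho hs0 hc (x := x) hx (N_eq_S ho hs0 hs hc hd x hx)
  have hop : ∀ v, Dead G c (G.op v) ↔ Dead G c v := by
    intro v
    cases hl : G.lf v with
    | true => exact (hX v hl).2.2
    | false =>
      have h1 : G.lf (G.op v) = true := by rw [lf_op' ho, hl]; rfl
      have h2 := (hX _ h1).2.2
      rw [G.op_op] at h2
      exact h2.symm
  have hpre : ∀ v, Dead G c (G.nxt.symm v) ↔ Dead G c v := by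
    intro v
    cases hl : G.lf v with
    | true => exact (hX v hl).1
    | false =>
      have h1 : G.lf (G.op v) = true := by rw [lf_op' ho, hl]; rfl
      have h2 := (hX _ h1).2.1
      rw [G.op_op] at h2
      exact h2.trans (hop v)
  have hall := hG.conn (Dead G c) he (fun v => by
    have := hpre (G.nxt v)
    rw [Equiv.symm_apply_apply] at this
    exact this.symm) hop
  exact face_ind (p := fun f => c f = 0) (fun i => (hall i).1) (fun i => (hall i).2) f

end

end Pool.Agent.Helper2.S4
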