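import Pool.Agent.Helper60.S4.Defs
import Pool.Agent.Helper2.PD.Cases

/-!
# S4, leaf (A)
-/

set_option autoImplicit false

namespace Pool.Agent.Helper2.S4

open Pool.Agent.Helper85.Exp Pool.Agent.Helper60.S4 Pool.Agent.Helper2.PD Pool.Agent.Helper43.Pln

variable {P F : Type} [Fintype P] (S : Sy P F)

theorem good_of (G : Sh P) (h : Plane G) : (sy G h.cross).Good where
  surj f := exists_side f
  conn := by
    intro T hT
    have hop : ∀ v : P, T ((sy G h.cross).ci (G.op v)) ↔ T ((sy G h.cross).ci v) := by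
      intro v
      cases hl : G.lf v with
      | true => exact (hT _ _ ⟨v, hl, rfl, rfl⟩).symm
      | false =>
        have h1 : G.lf (G.op v) = true := by rw [lf_op' h.cross, hl]; rfl
        have h2 := hT _ _ (⟨G.op v, h1, rfl, rfl⟩ : (sy G h.cross).Adj ((sy G h.cross).ci (G.op v))
          ((sy G h.cross).ci (G.op (G.op v))))
        rw [G.op_op] at h2
        exact h2
    have hnx : ∀ v : P, T ((sy G h.cross).ci (G.nxt v)) ↔ T ((sy G h.cross).ci v) := by
      intro v
      have h1 := hop (G.op (G.nxt v))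
      rw [G.op_op] at h1
      have h2 : (sy G h.cross).ci (G.op (G.nxt v)) = (sy G h.cross).ci v := (sy G h.cross).ci_sg v
      rw [h1, h2]
    intro i j hi
    obtain ⟨v, rfl⟩ := Quotient.exists_rep i
    obtain ⟨w, rfl⟩ := Quotient.exists_rep j
    exact h.conn (fun v => T ((sy G h.cross).ci v)) ⟨v, hi⟩ hnx hop w
  flow := by
    intro y hy
    refine circ_int h.conn h.cross h.genus y fun i => ?_
    have h1 := hy i
    have e1 : (sy G h.cross).sg.symm i = G.nxt.symm (G.op i) := rfl
    have e2 : (sy G h.cross).sg.symm ((sy G h.cross).op i) = G.nxt.symm (G.op (G.op i)) := rfl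
    rw [e1, e2, G.op_op, add_comm] at h1
    exact h1

theorem good_mir (hS : S.Good) : S.mir.Good where
  surj f := by
    obtain ⟨p, h | h⟩ := hS.surj f
    · exact ⟨p, Or.inr h⟩
    · exact ⟨p, Or.inl h⟩
  conn T hT := hS.conn T fun i j hij => (hT j i ((S.adj_mir j i).2 hij)).symm
  flow y hy := by
    obtain ⟨h, hh⟩ := hS.flow y hy
    refine ⟨fun f => - h f, fun e => ?_⟩
    show y e = - h (S.R e) - - h (S.L e)
    rw [hh e]
    ring

end Pool.Agent.Helper2.S4
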